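import Pool.Agent.P8H9.SN.Stm

/-!
# EXT: a Galois extension with a square root of `-1`
-/

set_option autoImplicit false

namespace Pool.Agent.P8H75.SN

open NumberField
open Pool.Agent.P8H9.SN (S_EXT)

/-- the norms in a tower -/
lemma norm_tower (K L : Type) [Field K] [NumberField K] [Field L] [NumberField L] [Algebra K L]
    (y : 𝓞 K) (y' : 𝓞 L) (h : (y' : L) = algebraMap K L (y : K)) :
    Algebra.norm ℤ y' = Algebra.norm ℤ y ^ Module.finrank K L := by
  have hst : IsScalarTower ℚ K L := IsScalarTower.of_algebraMap_eq' (Subsingleton.elim _ _)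
  have hfd : FiniteDimensional K L := FiniteDimensional.right ℚ K L
  have h1 : ((Algebra.norm ℤ y' : ℤ) : ℚ) = ((Algebra.norm ℤ y ^ Module.finrank K L : ℤ) : ℚ) := by
    push_cast
    rw [Algebra.coe_norm_int, Algebra.coe_norm_int, h, ← Algebra.norm_norm (S := K) (R := ℚ),
      Algebra.norm_algebraMap, map_pow]
  exact_mod_cast h1

lemma gal_transfer (L : Type) [Field L] [CharZero L] (A : Algebra ℚ L)
    (h : @IsGalois ℚ _ L _ A) : IsGalois ℚ L := by
  have h1 : A = DivisionRing.toRatAlgebra := Subsingleton.elim _ _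
  subst h1
  exact h

lemma exists_sqrt (K : Type) [Field K] [NumberField K] :
    ∃ (L : Type) (_ : Field L) (_ : NumberField L) (_ : Algebra K L), ∃ z : L, z ^ 2 = -1 := by
  let p : Polynomial K := Polynomial.X ^ 2 + 1
  have hp : p.degree ≠ 0 := by
    have : p.degree = 2 := by
      show (Polynomial.X ^ 2 + 1 : Polynomial K).degree = 2
      compute_degree!
    rw [this]
    norm_num
  have hs := Polynomial.SplittingField.splits p
  obtain ⟨z, hz⟩ := hs.exists_eval_eq_zero (by rwa [Polynomial.degree_map])
  refine ⟨p.SplittingField, inferInstance, NumberField.of_module_finite K p.SplittingField,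
    inferInstance, z, ?_⟩
  rw [Polynomial.eval_map] at hz
  simp [p] at hz
  linear_combination hz

lemma exists_gal (K : Type) [Field K] [NumberField K] :
    ∃ (L : Type) (_ : Field L) (_ : NumberField L) (_ : Algebra K L), IsGalois ℚ L := by
  let A := AlgebraicClosure K
  have h5 : Algebra.IsAlgebraic ℚ A := Algebra.IsAlgebraic.trans ℚ K A
  have h6 : IsAlgClosure ℚ A := ⟨inferInstance, h5⟩
  have h7 : Normal ℚ A := IsAlgClosure.normal ℚ A
  let L : IntermediateField ℚ A := IntermediateField.normalClosure ℚ K A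
  have h1 : FiniteDimensional ℚ L := inferInstance
  have h2 : FiniteDimensional K L := FiniteDimensional.right ℚ K L
  have h3 : Normal ℚ L := normalClosure.normal (F := ℚ) (K := K) (L := A)
  have h4 : IsGalois ℚ L := { }
  have hN : NumberField L := NumberField.of_module_finite K L
  exact ⟨L, inferInstance, hN, inferInstance, gal_transfer L _ h4⟩

/-- EXT -/
theorem t_EXT : S_EXT := by
  intro K _ _
  obtain ⟨K', f1, n1, a1, z, hz⟩ := exists_sqrt K
  obtain ⟨L, f2, n2, a2, hg⟩ := exists_gal K'
  let aL : Algebra K L := ((algebraMap K' L).comp (algebraMap K K')).toAlgebra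
  refine ⟨L, f2, n2, hg, aL, ⟨algebraMap K' L z, ?_⟩, ?_⟩
  · rw [← map_pow, hz, map_neg, map_one]
  · intro y y' h
    exact norm_tower K L y y' h

end Pool.Agent.P8H75.SN
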