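import Pool.Agent.P8H9.SN.Stm

/-!
# HT: heights of points with `S`-integral coordinates
-/

set_option autoImplicit false

namespace Pool.Agent.P8H75.SN

open NumberField IsDedekindDomain
open Pool.Agent.Y742.SF
open Pool.Agent.P8H9.SN (S_HT)

/-- HT -/
theorem t_HT : S_HT := by
  intro L _ _ _ D n x hx hT
  classical
  obtain ⟨j0, hj0⟩ : ∃ j, x j ≠ 0 := Function.ne_iff.1 hx
  have hn : Nonempty (Fin n) := ⟨j0⟩
  let F : HeightOneSpectrum (𝓞 L) → ℝ := fun w => ⨆ j, fv w (x j)
  have hle : ∀ w j, fv w (x j) ≤ F w := fun w j =>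
    le_ciSup (f := fun j => fv w (x j)) (Set.finite_range _).bddAbove j
  have hFpos : ∀ w, 0 < F w := fun w => lt_of_lt_of_le (fv_pos w _ hj0) (hle w j0)
  have hF1 : ∀ w, (∀ v, w ≠ D.P v) → F w ≤ 1 := fun w hw => ciSup_le fun j => hT j w hw
  have hfin : {w : HeightOneSpectrum (𝓞 L) | F w ≠ 1}.Finite := by
    have h1 : ∀ j, x j ≠ 0 → {w : HeightOneSpectrum (𝓞 L) | fv w (x j) ≠ 1}.Finite := by
      intro j hj
      have h2 : (Function.mulSupport fun w : FinitePlace L => w (x j)).Finite :=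
        FinitePlace.hasFiniteMulSupport hj
      have h3 := h2.image (FinitePlace.equivHeightOneSpectrum (K := L))
      refine h3.subset fun w hw => ?_
      refine ⟨FinitePlace.equivHeightOneSpectrum.symm w, ?_, Equiv.apply_symm_apply _ _⟩
      exact hw
    have h2 : (⋃ j ∈ {j : Fin n | x j ≠ 0}, {w : HeightOneSpectrum (𝓞 L) | fv w (x j) ≠ 1}).Finite :=
      Set.Finite.biUnion (Set.toFinite _) fun j hj => h1 j hj
    refine h2.subset fun w hw => ?_
    by_contra hcon
    apply hw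
    have h3 : ∀ j, x j ≠ 0 → fv w (x j) = 1 := by
      intro j hj
      by_contra h4
      exact hcon (Set.mem_biUnion (x := j) hj h4)
    apply le_antisymm
    · refine ciSup_le fun j => ?_
      by_cases hj : x j = 0
      · rw [hj, fv_zero]
        exact zero_le_one
      · exact (h3 j hj).le
    · have := hle w j0
      rwa [h3 j0 hj0] at this
  -- the finite part
  have hfinite : ∏ᶠ v : FinitePlace L, ⨆ i, v (x i) ≤ ∏ v, F (D.P v) := by
    have h1 : ∏ᶠ v : FinitePlace L, ⨆ i, v (x i) = ∏ᶠ w : HeightOneSpectrum (𝓞 L), F w := by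
      rw [← finprod_comp_equiv FinitePlace.equivHeightOneSpectrum.symm]
      rfl
    rw [h1]
    let s : Finset (HeightOneSpectrum (𝓞 L)) := Finset.univ.image D.P ∪ hfin.toFinset
    have h2 : ∏ᶠ w : HeightOneSpectrum (𝓞 L), F w = ∏ w ∈ s, F w := by
      apply finprod_eq_prod_of_mulSupport_subset
      intro w hw
      exact Finset.mem_coe.2 (Finset.mem_union_right _ (hfin.mem_toFinset.2 hw))
    rw [h2]
    have hsub : Finset.univ.image D.P ⊆ s := Finset.subset_union_left
    have h4 : ∏ w ∈ s, F w ≤ ∏ w ∈ Finset.univ.image D.P, F w := by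
      rw [← Finset.prod_sdiff hsub]
      refine mul_le_of_le_one_left (Finset.prod_nonneg fun w _ => (hFpos w).le) ?_
      refine Finset.prod_le_one (fun w _ => (hFpos w).le) fun w hw => hF1 w fun v hv => ?_
      rw [Finset.mem_sdiff] at hw
      exact hw.2 (Finset.mem_image.2 ⟨v, Finset.mem_univ _, hv.symm⟩)
    rw [Finset.prod_image fun a _ b _ h => D.hP h] at h4
    exact h4
  -- the infinite part
  let G : (L ≃ₐ[ℚ] L) → ℝ := fun σ => ⨆ j, ‖D.ψ (σ (x j))‖
  have hinf : ∏ v : InfinitePlace L, (⨆ i, v (x i)) ^ v.mult = ∏ σ, G σ := by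
    have e : ∀ φ : L →+* ℂ, (⨆ i, ‖φ (x i)‖) =
        (fun w : InfinitePlace L => ⨆ i, w (x i)) (InfinitePlace.mk φ) := by
      intro φ
      rfl
    have h1 : ∏ φ : L →+* ℂ, (⨆ i, ‖φ (x i)‖) = ∏ v : InfinitePlace L, (⨆ i, v (x i)) ^ v.mult := by
      rw [Finset.prod_congr rfl fun φ _ => e φ,
        ← Finset.prod_fiberwise (s := Finset.univ) (g := InfinitePlace.mk)]
      refine Finset.prod_congr rfl fun w _ => ?_
      rw [Finset.prod_congr rfl (g := fun _ => ⨆ i, w (x i)) (by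
        intro φ hφ
        rw [Finset.mem_filter] at hφ
        simp only [hφ.2]), Finset.prod_const]
      congr 1
      exact InfinitePlace.card_filter_mk_eq w
    rw [← h1]
    symm
    refine Fintype.prod_bijective (fun σ : L ≃ₐ[ℚ] L => D.ψ.comp (σ : L →+* L)) ⟨?_, ?_⟩ _ _ ?_
    · intro σ τ h
      apply AlgEquiv.ext
      intro y
      exact D.ψ.injective (RingHom.congr_fun h y)
    · intro φ
      obtain ⟨σ, hσ⟩ := exists_embs D.ψ φ
      refine ⟨σ, ?_⟩
      apply RingHom.ext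
      intro y
      exact (hσ y).symm
    · intro σ
      rfl
  have hGpos : ∀ σ, 0 < G σ := by
    intro σ
    have h1 : 0 < ‖D.ψ (σ (x j0))‖ := by
      rw [norm_pos_iff]
      exact (map_ne_zero _).2 ((map_ne_zero _).2 hj0)
    exact lt_of_lt_of_le h1 (le_ciSup (f := fun j => ‖D.ψ (σ (x j))‖) (Set.finite_range _).bddAbove j0)
  have hmain : Height.mulHeight x ≤ (∏ σ, G σ) * ∏ v, F (D.P v) := by
    rw [NumberField.mulHeight_eq hx, hinf]
    exact mul_le_mul_of_nonneg_left hfinite (Finset.prod_nonneg fun σ _ => (hGpos σ).le)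
  have hG0 : ∏ σ, G σ ≠ 0 := Finset.prod_ne_zero_iff.2 fun σ _ => (hGpos σ).ne'
  have hF0 : ∏ v, F (D.P v) ≠ 0 := Finset.prod_ne_zero_iff.2 fun v _ => (hFpos _).ne'
  rw [Height.logHeight_eq_log_mulHeight, Fintype.sum_sum_type]
  refine (Real.log_le_log (Height.mulHeight_pos x) hmain).trans ?_
  rw [Real.log_mul hG0 hF0, Real.log_prod fun σ _ => (hGpos σ).ne',
    Real.log_prod fun v _ => (hFpos _).ne']
  exact le_rfl

end Pool.Agent.P8H75.SN
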